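import Pool.Agent.R365.AK.Cell
import Pool.Agent.W108.AK.FIN

set_option autoImplicit false
set_option linter.unusedSectionVars false

/-!
Final assembly: the count from the bounds and the certificate.
-/

namespace Pool.Agent.R365.AK

open NumberField IsDedekindDomain Finset Pool.Agent.H691R3 Pool.Agent.W223.AK
open Pool.Agent.W108.AK (rl_union len_union ex_all len_single le_len_of len_ex_le rl_ex_le
  rl_cn_sum cells restrict_isP rl_filter_le)

variable {K : Type} [Field K] [NumberField K] {N : ℕ}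

/-- the bound for a cell -/
theorem cell (N : ℕ) (lam e : ℝ) (he : 0 ≤ e) (S : Finset (Pr K)) (n : ℕ) (hn : N + 1 ≤ n)
    (hSG : SGood S n)
    (hE : StmtEST S) (hDB : StmtDB S) (hM : StmtMB S) (hC : Cert N lam e) (c₀ δ : ℝ) (hδ : 0 < δ)
    (hnδ : 1 / ((n : ℝ) + 1) ≤ δ / 8) :
    ∃ D : ℝ, 0 < D ∧ ∀ (P : K → Fin 3 → Idl K) (E : Finset K) (X : ℝ), 0 ≤ X →
      (∀ x ∈ E, Pt x ∧ IsP S x (P x) ∧ ht x ≤ X ∧
        rl (P x 0) + rl (P x 1) + rl (P x 2) ≤ lam * ht x + c₀) →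
      (∀ x ∈ E, ∀ y ∈ E, Close N S n P x y) →
      (E.card : ℝ) ≤ D * Real.exp ((e + δ / 2) * X) := by
  classical
  obtain ⟨Cc, hCc, hcert⟩ := hC
  have hε : 0 < δ / 8 := by positivity
  have hn0 : (0 : ℝ) ≤ n := Nat.cast_nonneg n
  have hSGk : ∀ k, k ≤ n → SGood S k := fun k hk i h1 h2 => hSG i h1 (h2.trans hk)
  obtain ⟨DE, hDE, hest⟩ := hE n hSG (δ / 8) hε
  have hdb : ∀ i : Fin (N + 1), ∃ D : ℝ, 0 < D ∧ (1 ≤ (i : ℕ) →
      ∀ (X : ℝ) (E : Finset K) (P : K → Fin 3 → Idl K) (p q r : Fin 3) (c₁ c₂ c₃ : ℝ),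
      0 ≤ X → (∀ x ∈ E, Pt x ∧ IsP S x (P x) ∧ ht x ≤ X) → p ≠ q → q ≠ r → p ≠ r →
      (∀ x ∈ E, rl (ex (P x p) {m | m ≠ (i : ℕ) + 1}) ≤ c₁) →
      (∀ x ∈ E, rl (P x q) ≤ c₂) → (∀ x ∈ E, rl (P x r) ≤ c₃) →
      (E.card : ℝ) ≤ D * Real.exp (δ / 8 * X) *
        (Real.exp (c₁ + c₂) + Real.exp ((c₁ + c₂) / 2 + c₃))) := by
    intro i
    by_cases hi : 1 ≤ (i : ℕ)
    · obtain ⟨D, hD, h⟩ := hDB ((i : ℕ) + 1) (δ / 8) (by omega) hε
      exact ⟨D, hD, fun _ => h⟩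
    · exact ⟨1, one_pos, fun h => absurd h hi⟩
  choose Dd hDd hdb using hdb
  have hmb : ∀ k : Fin (N + 1), ∃ D : ℝ, 0 < D ∧ (1 ≤ (k : ℕ) →
      ∀ (X : ℝ) (E : Finset K) (P : K → Fin 3 → Idl K) (p q r : Fin 3) (I : Fin 3 → Set ℕ)
      (c g : Fin 3 → ℝ),
      0 ≤ X → (∀ x ∈ E, Pt x ∧ IsP S x (P x) ∧ ht x ≤ X) → p ≠ q → q ≠ r → p ≠ r →
      (∀ m, 1 ≤ m → m ∉ I p → (k : ℕ) ∣ m) → (∀ m, 1 ≤ m → m ∉ I q → (k : ℕ) ∣ m) →
      (∀ x ∈ E, ∀ l, rl (ex (P x l) (I l)) ≤ c l) →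
      (∀ x ∈ E, ∀ l, g l ≤ len (ex (P x l) (I l)) + ∑ v ∈ Spl S, lm v l x) →
      (E.card : ℝ) ≤ D * Real.exp (δ / 8 * X + (c p + c q + c r) +
        max 0 (2 * X / (k : ℕ) - (g p + g q) / (k : ℕ) - g r))) := by
    intro k
    by_cases hk : 1 ≤ (k : ℕ)
    · obtain ⟨D, hD, h⟩ := hM (k : ℕ) (δ / 8) hk (hSGk k (by omega)) hε
      exact ⟨D, hD, fun _ => h⟩
    · exact ⟨1, one_pos, fun h => absurd h hk⟩
  choose Dm hDm hmb using hmb
  set D0 : ℝ := DE + 2 * ∑ i, Dd i + ∑ k, Dm k with hD0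
  have hDdle : ∀ i, Dd i ≤ ∑ i, Dd i := fun i =>
    Finset.single_le_sum (f := Dd) (fun j _ => (hDd j).le) (Finset.mem_univ i)
  have hDmle : ∀ i, Dm i ≤ ∑ i, Dm i := fun i =>
    Finset.single_le_sum (f := Dm) (fun j _ => (hDm j).le) (Finset.mem_univ i)
  have hDs : 0 ≤ ∑ i, Dd i := Finset.sum_nonneg fun j _ => (hDd j).le
  have hDs' : 0 ≤ ∑ i, Dm i := Finset.sum_nonneg fun j _ => (hDm j).le
  have hD00 : 0 < D0 := by positivity
  have hcS := cS_nonneg S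
  set η : ℝ := 1 + cS S + |c₀| + |lam| with hη
  have hη0 : 0 ≤ η := by positivity
  set G : ℝ := ((Spl S).card : ℝ) with hG
  have hG0 : 0 ≤ G := by positivity
  have hbU := bU_nonneg N n
  have hbL := bL_nonneg N
  set K0 : ℝ := Cc * η + 3 * bU N n + 3 * (bL N + G) + δ * (cS S + n) + (3 * n + 5 + bL N)
    with hK0
  have hK00 : 0 ≤ K0 := by positivity
  refine ⟨D0 * Real.exp (K0 + (e + δ / 2)), by positivity, ?_⟩
  intro P E X hX hEx hcl
  rcases E.eq_empty_or_nonempty with rfl | ⟨x₀, hx₀⟩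
  · rw [Finset.card_empty, Nat.cast_zero]
    positivity
  obtain ⟨hpt0, hP0, hht0, hrl0⟩ := hEx x₀ hx₀
  have hcell : IsCell N S n lam c₀ (ht x₀ + 1) E P x₀ := by
    refine ⟨hx₀, rfl, fun x hx => ?_, hrl0, fun x hx => hcl x hx x₀ hx₀⟩
    obtain ⟨h1, h2, _⟩ := hEx x hx
    have h3 := (abs_le.mp (hcl x hx x₀ hx₀).hht).2
    exact ⟨h1, h2, by linarith⟩
  set Y : ℝ := ht x₀ + 1 with hY
  have hhtn := ht_nonneg x₀
  have hY0 : 0 ≤ Y := hcell.Y_nonneg
  suffices hmain : (E.card : ℝ) ≤ D0 * Real.exp (K0 + (e + δ / 2) * Y) by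
    refine hmain.trans ?_
    rw [mul_assoc, ← Real.exp_add]
    refine mul_le_mul_of_nonneg_left (Real.exp_le_exp.mpr ?_) hD00.le
    have h1 : (e + δ / 2) * Y ≤ (e + δ / 2) * (X + 1) :=
      mul_le_mul_of_nonneg_left (by linarith) (by positivity)
    linarith
  -- the certificate
  set s : Fin 3 → ℝ := fun l => ∑ v ∈ Spl S, lm v l x₀ with hs
  have hc := hcert Y η (fun l i => rl (ex (P x₀ l) (cls N i)))
    (fun l => len (ex (P x₀ l) (cls N (Fin.last N)))) s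
    hY0 hη0 (fun l i => rl_nonneg _)
    (fun l => by
      have h1 := le_len_of (P x₀ l) (cls N (Fin.last N)) (N + 1) (fun m hm => by
        rw [cls_last] at hm; exact hm)
      push_cast at h1
      exact h1)
    (fun l => by
      have h1 := sum_lm_ge (S := S) hpt0 l
      have h2 := abs_nonneg c₀
      have h2' := abs_nonneg lam
      have h3 : s l = ∑ v ∈ Spl S, lm v l x₀ := rfl
      rw [h3]
      linarith)
    (fun l => by
      rw [W_eq, ex_univ]
      have h1 := sum_lm hpt0 hP0 l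
      have h3 : s l = ∑ v ∈ Spl S, lm v l x₀ := rfl
      rw [h3, h1, hY]
      have h2 := abs_nonneg c₀
      have h2' := abs_nonneg lam
      have h4 : ht x₀ - (ht x₀ + 1) = -1 := by ring
      rw [h4, abs_neg, abs_one]
      linarith)
    (by
      rw [V_eq, V_eq, V_eq, ex_univ, ex_univ, ex_univ]
      have h2 := le_abs_self c₀
      have h3 := neg_le_abs lam
      have h4 : lam * Y = lam * ht x₀ + lam := by rw [hY]; ring
      rw [h4]
      linarith)
  simp only [V_eq, W_eq] at hc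
  rcases hc with ⟨p, q, r, k, I, hpq, hqr, hpr, hk1, hkN, hIp, hIq, hin⟩ |
    ⟨p, q, r, F, hpq, hqr, hpr, hin⟩ | ⟨p, q, r, i, hpq, hqr, hpr, hi1, hiN, hin1, hin2⟩
  · have h1 := case_M hn hcell (k := k) (hDm ⟨k, by omega⟩).le
      (hmb ⟨k, by omega⟩ hk1) hpq hqr hpr hk1 hIp hIq hin
    refine h1.trans ?_
    have h2 : Dm ⟨k, by omega⟩ ≤ D0 := by
      have := hDmle ⟨k, by omega⟩
      linarith
    refine mul_le_mul h2 (Real.exp_le_exp.mpr ?_) (Real.exp_pos _).le hD00.le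
    have h3 : 0 ≤ δ * (cS S + n) := by positivity
    have h4 : δ / 8 * Y ≤ δ / 2 * Y := mul_le_mul_of_nonneg_right (by linarith) hY0
    have h5 : (e + δ / 2) * Y = e * Y + δ / 2 * Y := by ring
    rw [h5, hK0]
    linarith
  · have h1 := case_S hn hcell hDE.le hest hpq hqr hpr hnδ hin
    refine h1.trans ?_
    have h2 : DE ≤ D0 := by linarith
    refine mul_le_mul h2 (Real.exp_le_exp.mpr ?_) (Real.exp_pos _).le hD00.le
    have h3 : 0 ≤ δ * cS S := by positivity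
    have h3' : 0 ≤ δ * (n : ℝ) := by positivity
    have h3'' : 0 ≤ δ * Y := by positivity
    have h6 : K0 = Cc * η + 3 * bU N n + 3 * (bL N + G) + (δ * cS S + δ * n) +
      (3 * n + 5 + bL N) := by rw [hK0]; ring
    have h7 : δ / 8 * (Y + cS S + n) = (δ * Y) / 8 + (δ * cS S) / 8 + (δ * n) / 8 := by ring
    have h8 : 2 * (δ / 8 * (Y + cS S)) = (δ * Y) / 4 + (δ * cS S) / 4 := by ring
    have h9 : (e + δ / 2) * Y = e * Y + (δ * Y) / 2 := by ring
    rw [h6, h7, h8, h9]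
    linarith
  · have h1 := case_D hn hcell hiN (hDd i).le (hdb i hi1) hpq hqr hpr hin1 hin2
    refine h1.trans ?_
    have h2 : 2 * Dd i ≤ D0 := by
      have := hDdle i
      linarith
    refine mul_le_mul h2 (Real.exp_le_exp.mpr ?_) (Real.exp_pos _).le hD00.le
    have h3 : 0 ≤ δ * (cS S + n) := by positivity
    have h4 : δ / 8 * Y ≤ δ / 2 * Y := mul_le_mul_of_nonneg_right (by linarith) hY0
    have h5 : (e + δ / 2) * Y = e * Y + δ / 2 * Y := by ring
    rw [h5, hK0]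
    linarith

/-- the functions whose integral parts define the cells -/
noncomputable def cf (N : ℕ) (S : Finset (Pr K)) (n : ℕ) (P : K → Fin 3 → Idl K) :
    (Unit ⊕ (Fin 3 × (Fin n ⊕ (Bool ⊕ {v // v ∈ Spl S})))) → K → ℝ
  | Sum.inl _, x => ht x
  | Sum.inr (l, Sum.inl i), x => rl (ex (P x l) {(i : ℕ) + 1})
  | Sum.inr (l, Sum.inr (Sum.inl true)), x => rl (ex (P x l) {m | n < m})
  | Sum.inr (l, Sum.inr (Sum.inl false)), x => len (ex (P x l) {m | N + 1 ≤ m})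
  | Sum.inr (l, Sum.inr (Sum.inr v)), x => lm v.1 l x

theorem fin {K : Type} [Field K] [NumberField K] (N : ℕ) (lam e : ℝ) (he : 0 ≤ e)
    (hU : StmtUNI K)
    (hE : ∀ (S : Finset (Pr K)) (w : Pr K → K) (C : ℝ), Unif S w C → StmtEST S)
    (hD : ∀ (S : Finset (Pr K)) (w : Pr K → K) (C : ℝ), Unif S w C → StmtDB S)
    (hM : ∀ S : Finset (Pr K), StmtMB S) (hC : Cert N lam e) : Fin3 K lam e := by
  classical
  intro T c₀ δ hδ
  -- the number of exact classes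
  obtain ⟨n, hn, hnδ⟩ : ∃ n : ℕ, N + 1 ≤ n ∧ 1 / ((n : ℝ) + 1) ≤ δ / 8 := by
    refine ⟨max (N + 1) ⌈8 / δ⌉₊, le_max_left _ _, ?_⟩
    have h1 : 8 / δ ≤ ((max (N + 1) ⌈8 / δ⌉₊ : ℕ) : ℝ) + 1 := by
      have h2 := Nat.le_ceil (8 / δ)
      have h3 : ((⌈8 / δ⌉₊ : ℕ) : ℝ) ≤ ((max (N + 1) ⌈8 / δ⌉₊ : ℕ) : ℝ) := by
        exact_mod_cast le_max_right _ _
      linarith
    have h2 : 0 < 8 / δ := by positivity
    have h3 : 1 / (((max (N + 1) ⌈8 / δ⌉₊ : ℕ) : ℝ) + 1) ≤ 1 / (8 / δ) :=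
      one_div_le_one_div_of_le h2 h1
    rwa [one_div_div] at h3
  -- the set of special primes
  have hfin : ∀ i : ℕ, {v : Pr K | 1 ≤ i ∧ fv v (i : K) ≠ 1}.Finite := by
    intro i
    by_cases hi : 1 ≤ i
    · refine (fv_support_finite (K := K) (x := (i : K)) ?_).subset fun v hv => hv.2
      exact_mod_cast (by omega : i ≠ 0)
    · refine Set.Finite.subset Set.finite_empty fun v hv => absurd hv.1 hi
  obtain ⟨S, hS, w, C, hw⟩ := hU (T ∪ (Finset.range (n + 1)).biUnion fun i => (hfin i).toFinset)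
  have hTS : T ⊆ S := Finset.subset_union_left.trans hS
  have hSG : SGood S n := by
    intro i h1 h2 v hv
    by_contra hcon
    apply hv
    apply hS
    rw [Finset.mem_union, Finset.mem_biUnion]
    right
    exact ⟨i, Finset.mem_range.mpr (by omega), by
      rw [Set.Finite.mem_toFinset]; exact ⟨h1, hcon⟩⟩
  obtain ⟨D1, hD1, hcell⟩ := cell N lam e he S n hn hSG (hE S w C hw) (hD S w C hw) (hM S) hC
    c₀ δ hδ hnδ
  obtain ⟨D2, hD2, hcount⟩ := cells (Unit ⊕ (Fin 3 × (Fin n ⊕ (Bool ⊕ {v // v ∈ Spl S}))))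
    (cS S) (δ / 2) (cS_nonneg S) (by positivity)
  refine ⟨D2 * D1, by positivity, ?_⟩
  intro X E hX hEx
  have hex : ∀ x : K, ∃ P : Fin 3 → Idl K, x ∈ E →
      (IsP S x P ∧ rl (P 0) + rl (P 1) + rl (P 2) ≤ lam * ht x + c₀) := by
    intro x
    by_cases hx : x ∈ E
    · obtain ⟨_, _, P, hP, hrl⟩ := hEx x hx
      refine ⟨fun l => (P l).filter (fun v => v ∉ S), fun _ => ⟨restrict_isP hTS hP, ?_⟩⟩
      have h0 := rl_filter_le S (P 0)
      have h1 := rl_filter_le S (P 1)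
      have h2 := rl_filter_le S (P 2)
      linarith
    · exact ⟨fun _ => 0, fun h => absurd h hx⟩
  choose P hP using hex
  have hmain := hcount K (cf N S n P) X E hX ?_ (D1 * Real.exp ((e + δ / 2) * X)) (by positivity) ?_
  · refine hmain.trans (le_of_eq ?_)
    have h1 : (e + δ) * X = δ / 2 * X + (e + δ / 2) * X := by ring
    rw [h1, Real.exp_add]
    ring
  · intro x hx j
    obtain ⟨hpt, hht, _⟩ := hEx x hx
    obtain ⟨hPx, _⟩ := hP x hx
    have hcS := cS_nonneg S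
    have hlen : ∀ l, len (P x l) ≤ X + cS S := fun l => by
      have := len_le hpt hPx l
      linarith
    rcases j with _ | ⟨l, i | (b | v)⟩
    · show -cS S ≤ ht x ∧ ht x ≤ X + cS S
      have := ht_nonneg x
      constructor <;> linarith
    · show -cS S ≤ rl (ex (P x l) {(i : ℕ) + 1}) ∧ rl (ex (P x l) {(i : ℕ) + 1}) ≤ X + cS S
      have h1 := rl_nonneg (ex (P x l) {(i : ℕ) + 1})
      have h2 := rl_ex_le (P x l) {(i : ℕ) + 1}
      have h3 := hlen l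
      constructor <;> linarith
    · rcases b with _ | _
      · show -cS S ≤ len (ex (P x l) {m | N + 1 ≤ m}) ∧
          len (ex (P x l) {m | N + 1 ≤ m}) ≤ X + cS S
        have h1 := len_nonneg (ex (P x l) {m | N + 1 ≤ m})
        have h2 := len_ex_le (P x l) {m | N + 1 ≤ m}
        have h3 := hlen l
        constructor <;> linarith
      · show -cS S ≤ rl (ex (P x l) {m | n < m}) ∧ rl (ex (P x l) {m | n < m}) ≤ X + cS S
        have h1 := rl_nonneg (ex (P x l) {m | n < m})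
        have h2 := rl_ex_le (P x l) {m | n < m}
        have h3 := hlen l
        constructor <;> linarith
    · show -cS S ≤ lm v.1 l x ∧ lm v.1 l x ≤ X + cS S
      have h1 := lm_ge hpt v.1 l
      have h2 := lm_le hpt v.2 l
      have h3 : mt v.1 * Real.log 2 ≤ cS S :=
        Finset.single_le_sum (f := fun u : Pl K => mt u * Real.log 2)
          (fun u _ => mul_nonneg (mt_pos u).le (Real.log_nonneg (by norm_num))) v.2
      constructor <;> linarith
  · intro G hGE hG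
    refine hcell P G X hX ?_ ?_
    · intro x hx
      obtain ⟨hpt, hht, _⟩ := hEx x (hGE hx)
      obtain ⟨hPx, hrl⟩ := hP x (hGE hx)
      exact ⟨hpt, hPx, hht, hrl⟩
    · intro x hx y hy
      exact ⟨hG (Sum.inl ()) x hx y hy,
        fun l i => hG (Sum.inr (l, Sum.inl i)) x hx y hy,
        fun l => hG (Sum.inr (l, Sum.inr (Sum.inl true))) x hx y hy,
        fun l => hG (Sum.inr (l, Sum.inr (Sum.inl false))) x hx y hy,
        fun l v hv => hG (Sum.inr (l, Sum.inr (Sum.inr ⟨v, hv⟩))) x hx y hy⟩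

end Pool.Agent.R365.AK
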