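import Pool.Agent.R365.AK.Cls

set_option autoImplicit false
set_option linter.unusedVariables false

/-!
The certificate for small `lam`: the exponent `4 lam / 7`.
-/

namespace Pool.Agent.R365.AK

open Finset

namespace Sm

variable {N : ℕ}

theorem V_compl (v : Fin 3 → Fin (N + 1) → ℝ) (j : Fin 3) (F : Finset (Fin (N + 1))) :
    V v j Fᶜ = V v j univ - V v j F := by
  have := Finset.sum_add_sum_compl F (fun i => v j i)
  unfold V
  linarith

theorem W_compl (v : Fin 3 → Fin (N + 1) → ℝ) (w : Fin 3 → ℝ) (j : Fin 3)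
    (F : Finset (Fin (N + 1))) : W v w j Fᶜ = W v w j univ - W v w j F := by
  have := Finset.sum_add_sum_compl F
    (fun i : Fin (N + 1) => if (i : ℕ) < N then ((i : ℕ) + 1 : ℝ) * v j i else w j)
  unfold W
  linarith

theorem V_single (v : Fin 3 → Fin (N + 1) → ℝ) (j : Fin 3) (i : Fin (N + 1)) :
    V v j {i} = v j i := by
  unfold V
  simp

theorem V_nonneg (v : Fin 3 → Fin (N + 1) → ℝ) (hv : ∀ j i, 0 ≤ v j i) (j : Fin 3)
    (F : Finset (Fin (N + 1))) : 0 ≤ V v j F :=
  Finset.sum_nonneg fun i _ => hv j i

theorem exists_part (v : Fin 3 → Fin (N + 1) → ℝ) (hv : ∀ j i, 0 ≤ v j i) (r : Fin 3)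
    (hpos : 0 < V v r univ) (h : ∀ i, v r i ≤ 2 / 3 * V v r univ) :
    ∃ F : Finset (Fin (N + 1)), 1 / 3 * V v r univ ≤ V v r F ∧
      V v r F ≤ 2 / 3 * V v r univ := by
  classical
  by_cases h1 : ∃ i, 1 / 3 * V v r univ ≤ v r i
  · obtain ⟨i, hi⟩ := h1
    exact ⟨{i}, by rwa [V_single], by rw [V_single]; exact h i⟩
  push Not at h1
  obtain ⟨F, hF, hmax⟩ := Finset.exists_max_image
    ((univ : Finset (Finset (Fin (N + 1)))).filter fun F => V v r F ≤ 2 / 3 * V v r univ)
    (fun F => V v r F) ⟨∅, by
      simp only [mem_filter, mem_univ, true_and]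
      have : 0 ≤ V v r univ := V_nonneg v hv r univ
      have h0 : V v r ∅ = 0 := by unfold V; simp
      rw [h0]
      linarith⟩
  rw [mem_filter] at hF
  refine ⟨F, ?_, hF.2⟩
  by_contra hcon
  push Not at hcon
  have h2 : ∃ i, i ∉ F ∧ 0 < v r i := by
    by_contra h3
    push Not at h3
    have h4 : V v r Fᶜ ≤ 0 := by
      unfold V
      exact Finset.sum_nonpos fun i hi => h3 i (by simpa using hi)
    rw [V_compl] at h4
    linarith
  obtain ⟨i, hiF, hi⟩ := h2
  have h5 : V v r (insert i F) = v r i + V v r F := by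
    unfold V
    exact Finset.sum_insert hiF
  have h6 := hmax (insert i F) (by
    rw [mem_filter]
    refine ⟨mem_univ _, ?_⟩
    rw [h5]
    have := h1 i
    linarith)
  simp only [h5] at h6
  linarith

theorem core (lam : ℝ) (hl0 : 0 < lam) (hl1 : lam ≤ 9 / 10) (hN : 11 / lam ≤ (N : ℝ))
    (X Y η : ℝ) (hX : 0 ≤ X) (hη : 0 ≤ η) (hY : Y = lam * X)
    (v : Fin 3 → Fin (N + 1) → ℝ) (w s : Fin 3 → ℝ)
    (hv : ∀ j i, 0 ≤ v j i) (hw : ∀ l, ((N : ℝ) + 1) * v l (Fin.last N) ≤ w l)
    (hs : ∀ l, -η ≤ s l) (hW : ∀ l, |W v w l univ + s l - X| ≤ η)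
    (p q r : Fin 3)
    (hsum : V v p univ + V v q univ + V v r univ ≤ Y + η)
    (h1 : V v p univ ≤ V v q univ) (h2 : V v p univ ≤ V v r univ)
    (hT1 : 4 * Y / 7 + 100 * η < V v p univ + V v q univ + 3 * η)
    (hT2 : 4 * Y / 7 + 100 * η < V v p univ + V v r univ + 3 * η)
    (hT3 : 4 * Y / 7 + 100 * η < V v q univ + V v r univ + 3 * η)
    (hE : ∀ F : Finset (Fin (N + 1)), 4 * Y / 7 + 100 * η <
      V v r F + 1 / 2 * (V v p univ + max 0 (3 / 2 * V v p univ - (W v w r F + s r))) +
        1 / 2 * (V v q univ + max 0 (3 / 2 * V v q univ - (W v w r F + s r))))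
    (hD : ∀ i : Fin (N + 1), 1 ≤ (i : ℕ) → (i : ℕ) < N →
      4 * Y / 7 + 100 * η < V v r {i}ᶜ + V v q univ ∨
      4 * Y / 7 + 100 * η < (V v r {i}ᶜ + V v q univ) / 2 + V v p univ) :
    False := by
  have hVp : 0 ≤ V v p univ := V_nonneg v hv p univ
  have hVq : 0 ≤ V v q univ := V_nonneg v hv q univ
  have hVr : 0 ≤ V v r univ := V_nonneg v hv r univ
  obtain ⟨P, hPd⟩ : ∃ P, P = V v p univ := ⟨_, rfl⟩
  obtain ⟨Q, hQd⟩ : ∃ Q, Q = V v q univ := ⟨_, rfl⟩
  obtain ⟨R, hRd⟩ : ∃ R, R = V v r univ := ⟨_, rfl⟩
  rw [← hPd, ← hQd, ← hRd] at hsum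
  rw [← hPd, ← hQd] at h1 hT1
  rw [← hPd, ← hRd] at h2 hT2
  rw [← hQd, ← hRd] at hT3
  rw [← hPd] at hVp
  rw [← hQd] at hVq
  rw [← hRd] at hVr
  simp only [← hPd, ← hQd] at hE hD
  have hY1 : Y ≤ 9 / 10 * X := by rw [hY]; exact mul_le_mul_of_nonneg_right hl1 hX
  have hWr := abs_le.mp (hW r)
  obtain ⟨hWr1, hWr2⟩ := hWr
  have hsr := hs r
  -- total gain of a set and its complement
  have hg : ∀ F : Finset (Fin (N + 1)),
      X - 2 * η ≤ (W v w r F + s r) + (W v w r Fᶜ + s r) := by
    intro F
    rw [W_compl]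
    linarith
  have hη' : 90 * η ≤ 3 / 7 * Y := by linarith
  -- averaging
  have hi : ∀ F : Finset (Fin (N + 1)), W v w r F + s r < 3 / 2 * Q →
      W v w r Fᶜ + s r < 3 / 2 * Q → False := by
    intro F a1 a2
    have e1 := hE F
    have e2 := hE Fᶜ
    have e3 := hg F
    rw [V_compl v, ← hRd] at e2
    have b1 : P + Q ≤ 643 / 1000 * X := by
      by_contra hcon
      push Not at hcon
      linarith
    rw [max_eq_left (show 3 / 2 * P - (W v w r F + s r) ≤ 0 by linarith),
      max_eq_right (show 0 ≤ 3 / 2 * Q - (W v w r F + s r) by linarith)] at e1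
    rw [max_eq_left (show 3 / 2 * P - (W v w r Fᶜ + s r) ≤ 0 by linarith),
      max_eq_right (show 0 ≤ 3 / 2 * Q - (W v w r Fᶜ + s r) by linarith)] at e2
    linarith
  -- no loss
  have hii : ∀ F : Finset (Fin (N + 1)), 3 / 2 * Q ≤ W v w r F + s r →
      4 * Y / 7 + 100 * η < V v r F + 1 / 2 * (P + Q) := by
    intro F a1
    have e1 := hE F
    rw [max_eq_left (show 3 / 2 * P - (W v w r F + s r) ≤ 0 by linarith),
      max_eq_left (show 3 / 2 * Q - (W v w r F + s r) ≤ 0 by linarith)] at e1
    linarith
  have hiii : ∀ F : Finset (Fin (N + 1)), 3 / 2 * Q ≤ W v w r Fᶜ + s r →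
      4 * Y / 7 + 100 * η < R - V v r F + 1 / 2 * (P + Q) := by
    intro F a1
    have e1 := hii Fᶜ a1
    rw [V_compl v, ← hRd] at e1
    exact e1
  by_cases hbig : ∃ i, 2 / 3 * R < v r i
  · obtain ⟨i, hi'⟩ := hbig
    have hMR : v r i ≤ R := by
      rw [hRd]
      unfold V
      exact Finset.single_le_sum (fun i _ => hv r i) (mem_univ _)
    rcases lt_or_ge (W v w r {i}ᶜ + s r) (3 / 2 * Q) with c1 | c1
    · rcases lt_or_ge (W v w r {i} + s r) (3 / 2 * Q) with c2 | c2
      · exact hi {i} c2 c1
      · have e1 := hii {i} c2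
        rw [V_single] at e1
        rw [W_compl] at c1
        by_cases hi0 : (i : ℕ) = 0
        · by_cases hN0 : 0 < N
          · have e2 : W v w r {i} = v r i := by
              unfold W
              rw [Finset.sum_singleton, if_pos (by omega), hi0]
              simp
            rw [e2] at c1
            linarith
          · have : (N : ℝ) = 0 := by
              have : N = 0 := by omega
              exact_mod_cast this
            rw [this] at hN
            have : 0 < 11 / lam := by positivity
            linarith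
        · by_cases hiN : (i : ℕ) < N
          · have e2 := hD i (by omega) hiN
            rw [V_compl v, V_single, ← hRd] at e2
            rcases e2 with e2 | e2
            · linarith
            · linarith
          · have e4 : i = Fin.last N := by
              apply Fin.ext
              have := i.2
              simp only [Fin.val_last]
              omega
            have hNp : (0 : ℝ) < (N : ℝ) + 1 := by positivity
            have e5 := hw r
            rw [← e4] at e5
            have e6 : W v w r {i} = w r := by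
              unfold W
              rw [Finset.sum_singleton, if_neg hiN]
            have e7 : 0 ≤ W v w r {i}ᶜ := by
              unfold W
              refine Finset.sum_nonneg fun j _ => ?_
              split_ifs
              · exact mul_nonneg (by positivity) (hv r j)
              · have := hw r
                have h3 := hv r (Fin.last N)
                have h4 : 0 ≤ ((N : ℝ) + 1) * v r (Fin.last N) := by positivity
                linarith
            rw [W_compl, e6] at e7
            have e8 : ((N : ℝ) + 1) * v r i ≤ X + 2 * η := by linarith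
            have e9 : v r i ≤ lam / 11 * (X + 2 * η) := by
              have h5 : 11 ≤ lam * ((N : ℝ) + 1) := by
                rw [div_le_iff₀ hl0] at hN
                nlinarith
              have h6 : 0 ≤ v r i := hv r i
              have h7 : 11 * v r i ≤ lam * (((N : ℝ) + 1) * v r i) := by
                have := mul_le_mul_of_nonneg_right h5 h6
                linarith
              have h8 : lam * (((N : ℝ) + 1) * v r i) ≤ lam * (X + 2 * η) :=
                mul_le_mul_of_nonneg_left e8 hl0.le
              linarith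
            have e10 : lam / 11 * (X + 2 * η) ≤ Y / 11 + 2 * η := by
              rw [hY]
              have : lam * η ≤ 1 * η := mul_le_mul_of_nonneg_right (by linarith) hη
              nlinarith
            linarith
    · have e1 := hiii {i} c1
      rw [V_single] at e1
      linarith
  · push Not at hbig
    have hRpos : 0 < R := by linarith
    rw [hRd] at hbig
    obtain ⟨F, hF1, hF2⟩ := exists_part v hv r (by rw [← hRd]; exact hRpos) hbig
    rw [← hRd] at hF1 hF2
    rcases lt_or_ge (W v w r Fᶜ + s r) (3 / 2 * Q) with c1 | c1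
    · rcases lt_or_ge (W v w r F + s r) (3 / 2 * Q) with c2 | c2
      · exact hi F c2 c1
      · have e1 := hii F c2
        linarith
    · have e1 := hiii F c1
      linarith

end Sm

open Sm in
/-- the certificate with exponent `4 lam / 7` -/
theorem cert_small (lam : ℝ) (hl0 : 0 < lam) (hl1 : lam ≤ 9 / 10) :
    ∃ N : ℕ, Cert N lam (4 * lam / 7) := by
  obtain ⟨N, hN⟩ := exists_nat_ge (11 / lam)
  refine ⟨N, 100, by norm_num, ?_⟩
  intro X η v w s hX hη hv hw hs hW hV
  by_contra hcon
  push Not at hcon
  obtain ⟨hM, hS, hD⟩ := hcon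
  have hN1 : 1 ≤ N := by
    by_contra h
    have h0 : N = 0 := by omega
    rw [h0] at hN
    have : 0 < 11 / lam := by positivity
    push_cast at hN
    linarith
  have ht : 4 * lam / 7 * X + 100 * η = 4 * (lam * X) / 7 + 100 * η := by ring
  rw [ht] at hM hS hD
  have hT : ∀ p q r : Fin 3, p ≠ q → q ≠ r → p ≠ r →
      4 * (lam * X) / 7 + 100 * η < V v p univ + V v q univ + 3 * η := by
    intro p q r hpq hqr hpr
    have h := hM p q r 1 (fun l => if l = r then ∅ else univ) hpq hqr hpr le_rfl hN1
      (fun i _ => Or.inl rfl) (fun i _ => Or.inl rfl)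
    simp only [if_neg hpr, if_neg hqr, if_true] at h
    have hp := (abs_le.mp (hW p)).1
    have hq := (abs_le.mp (hW q)).1
    have hr := hs r
    have h0 : V v r ∅ = 0 := by unfold V; simp
    have h0' : W v w r ∅ = 0 := by unfold W; simp
    rw [h0, h0'] at h
    have h1 : max 0 (2 * X / ((1 : ℕ) : ℝ) - (W v w p univ + s p + (W v w q univ + s q)) /
        ((1 : ℕ) : ℝ) - (0 + s r)) ≤ 3 * η := by
      rw [Nat.cast_one, div_one, div_one]
      refine max_le (by positivity) ?_
      linarith
    linarith
  have hs3 : ∀ p q r : Fin 3, p ≠ q → q ≠ r → p ≠ r →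
      V v p univ + V v q univ + V v r univ = V v 0 univ + V v 1 univ + V v 2 univ := by
    intro p q r hpq hqr hpr
    fin_cases p <;> fin_cases q <;> fin_cases r <;>
      first
        | exact absurd rfl hpq
        | exact absurd rfl hqr
        | exact absurd rfl hpr
        | (simp only [Fin.zero_eta, Fin.mk_one, Fin.reduceFinMk]; try ring)
  have key : ∀ p q r : Fin 3, p ≠ q → q ≠ r → p ≠ r →
      V v p univ ≤ V v q univ → V v p univ ≤ V v r univ → False := by
    intro p q r hpq hqr hpr a1 a2
    refine core lam hl0 hl1 hN X (lam * X) η hX hη rfl v w s hv hw hs hW p q r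
      (by rw [hs3 p q r hpq hqr hpr]; exact hV) a1 a2 (hT p q r hpq hqr hpr)
      (hT p r q hpr hqr.symm hpq) (hT q r p hqr hpr.symm hpq.symm)
      (fun F => hS p q r F hpq hqr hpr) ?_
    intro i b1 b2
    by_cases h : V v r {i}ᶜ + V v q univ ≤ 4 * (lam * X) / 7 + 100 * η
    · right
      exact hD r q p i hqr.symm hpq.symm hpr.symm b1 b2 h
    · left
      exact not_le.mp h
  rcases le_total (V v 1 univ) (V v 2 univ) with c | c
  · rcases le_total (V v 0 univ) (V v 1 univ) with c' | c'
    · exact key 0 1 2 (by decide) (by decide) (by decide) c' (by linarith)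
    · exact key 1 0 2 (by decide) (by decide) (by decide) c' c
  · rcases le_total (V v 0 univ) (V v 2 univ) with c' | c'
    · exact key 0 2 1 (by decide) (by decide) (by decide) c' (by linarith)
    · exact key 2 0 1 (by decide) (by decide) (by decide) c' c

end Pool.Agent.R365.AK
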