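import Pool.Agent.W108.AK.Cls

set_option autoImplicit false
set_option linter.unusedSectionVars false

/-!
Classes of exponents: `N` exact classes and the tail.
-/

namespace Pool.Agent.R365.AK

open NumberField IsDedekindDomain Finset Pool.Agent.H691R3 Pool.Agent.W223.AK
open Pool.Agent.W108.AK (rl_union len_union ex_all len_single le_len_of len_ex_le rl_ex_le rl_cn_sum)

/-- total cost of the classes in `I` -/
noncomputable def V {N : ℕ} (v : Fin 3 → Fin (N + 1) → ℝ) (l : Fin 3) (I : Finset (Fin (N + 1))) :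
    ℝ := ∑ i ∈ I, v l i

/-- total weight of the classes in `I` -/
noncomputable def W {N : ℕ} (v : Fin 3 → Fin (N + 1) → ℝ) (w : Fin 3 → ℝ) (l : Fin 3)
    (I : Finset (Fin (N + 1))) : ℝ :=
  ∑ i ∈ I, if (i : ℕ) < N then ((i : ℕ) + 1 : ℝ) * v l i else w l

/-- one of the three bounds is good, for all cells of points with `rad ≤ lam * h` -/
def Cert (N : ℕ) (lam e : ℝ) : Prop :=
  ∃ C : ℝ, 0 ≤ C ∧ ∀ (X η : ℝ) (v : Fin 3 → Fin (N + 1) → ℝ) (w s : Fin 3 → ℝ),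
    0 ≤ X → 0 ≤ η → (∀ l i, 0 ≤ v l i) → (∀ l, ((N : ℝ) + 1) * v l (Fin.last N) ≤ w l) →
    (∀ l, -η ≤ s l) → (∀ l, |W v w l univ + s l - X| ≤ η) →
    (V v 0 univ + V v 1 univ + V v 2 univ ≤ lam * X + η) →
    (∃ (p q r : Fin 3) (k : ℕ) (I : Fin 3 → Finset (Fin (N + 1))), p ≠ q ∧ q ≠ r ∧ p ≠ r ∧
      1 ≤ k ∧ k ≤ N ∧ (∀ i, i ∉ I p → k = 1 ∨ ((i : ℕ) < N ∧ k ∣ (i : ℕ) + 1)) ∧
      (∀ i, i ∉ I q → k = 1 ∨ ((i : ℕ) < N ∧ k ∣ (i : ℕ) + 1)) ∧
      V v p (I p) + V v q (I q) + V v r (I r) +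
        max 0 (2 * X / k - ((W v w p (I p) + s p) + (W v w q (I q) + s q)) / k -
          (W v w r (I r) + s r)) ≤ e * X + C * η) ∨
    (∃ (p q r : Fin 3) (F : Finset (Fin (N + 1))), p ≠ q ∧ q ≠ r ∧ p ≠ r ∧
      V v r F + 1 / 2 * (V v p univ + max 0 (3 / 2 * V v p univ - (W v w r F + s r))) +
        1 / 2 * (V v q univ + max 0 (3 / 2 * V v q univ - (W v w r F + s r))) ≤
        e * X + C * η) ∨
    (∃ (p q r : Fin 3) (i : Fin (N + 1)), p ≠ q ∧ q ≠ r ∧ p ≠ r ∧ 1 ≤ (i : ℕ) ∧ (i : ℕ) < N ∧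
      V v p {i}ᶜ + V v q univ ≤ e * X + C * η ∧
      (V v p {i}ᶜ + V v q univ) / 2 + V v r univ ≤ e * X + C * η)

/-- the final count, for points with `rad ≤ lam * h + c₀` -/
def Fin3 (K : Type) [Field K] [NumberField K] (lam e : ℝ) : Prop :=
  ∀ (T : Finset (Pr K)) (c₀ δ : ℝ), 0 < δ → ∃ D : ℝ, 0 < D ∧ ∀ (X : ℝ) (E : Finset K), 0 ≤ X →
    (∀ x ∈ E, Pt x ∧ ht x ≤ X ∧ ∃ P : Fin 3 → Idl K, IsP T x P ∧
      rl (P 0) + rl (P 1) + rl (P 2) ≤ lam * ht x + c₀) →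
    (E.card : ℝ) ≤ D * Real.exp ((e + δ) * X)

section Parts

variable {K : Type} [Field K] [NumberField K] {N : ℕ}

/-- the classes of exponents -/
def cls (N : ℕ) (i : Fin (N + 1)) : Set ℕ := {m | 1 ≤ m ∧ min (m - 1) N = (i : ℕ)}

lemma cls_lt {i : Fin (N + 1)} (hi : (i : ℕ) < N) : cls N i = {(i : ℕ) + 1} := by
  ext m
  unfold cls
  rw [Set.mem_ofPred_eq, Set.mem_singleton_iff]
  omega

lemma cls_last : cls N (Fin.last N) = {m | N + 1 ≤ m} := by
  ext m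
  unfold cls
  rw [Set.mem_ofPred_eq, Set.mem_ofPred_eq, Fin.val_last]
  omega

lemma eq_last {i : Fin (N + 1)} (hi : ¬ (i : ℕ) < N) : i = Fin.last N := by
  have h1 := i.2
  apply Fin.ext
  rw [Fin.val_last]
  omega

lemma cls_disj (i j : Fin (N + 1)) (h : i ≠ j) : Disjoint (cls N i) (cls N j) := by
  rw [Set.disjoint_left]
  intro m h1 h2
  apply h
  ext
  rw [← h1.2, h2.2]

/-- the union of the classes in `I` -/
def Un (I : Finset (Fin (N + 1))) : Set ℕ := {m | ∃ i ∈ I, m ∈ cls N i}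

lemma rl_Un (a : Idl K) (I : Finset (Fin (N + 1))) :
    rl (ex a (Un I)) = ∑ i ∈ I, rl (ex a (cls N i)) :=
  rl_union a I (cls N) fun i _ j _ h => cls_disj i j h

lemma len_Un (a : Idl K) (I : Finset (Fin (N + 1))) :
    len (ex a (Un I)) = ∑ i ∈ I, len (ex a (cls N i)) :=
  len_union a I (cls N) fun i _ j _ h => cls_disj i j h

lemma mem_Un_univ {m : ℕ} (h : 1 ≤ m) : m ∈ Un (univ : Finset (Fin (N + 1))) := by
  refine ⟨⟨min (m - 1) N, by omega⟩, Finset.mem_univ _, h, rfl⟩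

lemma ex_univ (a : Idl K) : ex a (Un (univ : Finset (Fin (N + 1)))) = a :=
  ex_all a _ fun _ h => mem_Un_univ h

lemma rl_compl (a : Idl K) (i : Fin (N + 1)) (hi : (i : ℕ) < N) :
    rl (ex a {m | m ≠ (i : ℕ) + 1}) = rl (ex a (Un {i}ᶜ)) := by
  congr 1
  classical
  ext v
  rw [Pool.Agent.W223.AK.ex_apply, Pool.Agent.W223.AK.ex_apply]
  by_cases h0 : a v = 0
  · simp [h0]
  · have h1 : a v ∈ {m | m ≠ (i : ℕ) + 1} ↔ a v ∈ Un {i}ᶜ := by
      unfold Un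
      rw [Set.mem_ofPred_eq, Set.mem_ofPred_eq]
      constructor
      · intro h
        refine ⟨⟨min (a v - 1) N, by omega⟩, ?_, by omega, rfl⟩
        rw [Finset.mem_compl, Finset.mem_singleton]
        intro h2
        have h3 := congrArg Fin.val h2
        simp only at h3
        omega
      · rintro ⟨j, hj, hj1, hj2⟩ h
        rw [Finset.mem_compl, Finset.mem_singleton] at hj
        apply hj
        ext
        omega
    simp only [h1]

end Parts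

end Pool.Agent.R365.AK
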