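import Mathlib
import Pool.Agent.W223.AK.Main
import Pool.Agent.W223.AK.Final
import Pool.Agent.R365.AK.FIN
import Pool.Agent.R365.AK.Small
import Pool.Agent.R365.Chk.Run
import Pool.Agent.R365.Chk.C1
import Pool.Agent.R365.Chk.C2
import Pool.Agent.R365.Chk.C3
import Pool.Agent.R365.Chk.C4
import Pool.Agent.R365.Chk.C5
import Pool.Agent.R365.Chk.C6
import Pool.Agent.R365.Chk.C7
import Pool.Agent.R365.Chk.C8
import Pool.Agent.R365.Chk.C9
import Pool.Agent.R365.Chk.C10
import Pool.Agent.R365.Chk.C11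

set_option autoImplicit false

/-!
# The count of the points with `rad ≤ lam * h`, for all `lam`
-/

namespace Pool.Agent.R365.AK

open NumberField IsDedekindDomain Finset Pool.Agent.H691R3 Pool.Agent.W223.AK

open Pool.Agent.R365.Chk

/-- the exponent -/
noncomputable def eK (l : ℝ) : ℝ :=
  if l ≤ 7 / 15 then 4 * l / 7
  else if l ≤ 1 then (19 * l + 1) / 37
  else if l ≤ 9 / 7 then 5 * (9 * l - 1) / 74
  else if l ≤ 3 / 2 then 5 * l / 9
  else if l ≤ 5 / 3 then l - 2 / 3
  else if l ≤ 2 then 1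
  else l - 1

/-- a certificate exists -/
def HasCert (lam e : ℝ) : Prop := ∃ N : ℕ, Cert N lam e

theorem has_seg (P : Prm) (ns : List ℕ) (hrun : run P ns [[]] = true) (hN : P.N ≤ 9)
    (hd : 0 < P.den) (lam : ℝ) (hl : 0 ≤ lam) (hlo : (P.lon : ℝ) ≤ P.lod * lam)
    (hhi : P.hid * lam ≤ P.hin) {e : ℝ} (he : P.th lam = e) : HasCert lam e :=
  ⟨P.N, he ▸ cert_of_run P ns hrun hN hd lam hl hlo hhi⟩

theorem cert_a (lam : ℝ) (h1 : 7 / 15 ≤ lam) (h2 : lam ≤ 1) : HasCert lam ((19 * lam + 1) / 37) := by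
  rcases le_total lam (1 / 2) with h | h
  · exact has_seg C1.prm C1.dat C1.run_ok (by norm_num [C1.prm]) (by norm_num [C1.prm]) lam
      (by linarith) (by simp only [C1.prm]; push_cast; linarith)
      (by simp only [C1.prm]; push_cast; linarith) (by simp [Prm.th, C1.prm])
  rcases le_total lam (11 / 20) with h' | h'
  · exact has_seg C2.prm C2.dat C2.run_ok (by norm_num [C2.prm]) (by norm_num [C2.prm]) lam
      (by linarith) (by simp only [C2.prm]; push_cast; linarith)
      (by simp only [C2.prm]; push_cast; linarith) (by simp [Prm.th, C2.prm])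
  rcases le_total lam (3 / 5) with h3 | h3
  · exact has_seg C3.prm C3.dat C3.run_ok (by norm_num [C3.prm]) (by norm_num [C3.prm]) lam
      (by linarith) (by simp only [C3.prm]; push_cast; linarith)
      (by simp only [C3.prm]; push_cast; linarith) (by simp [Prm.th, C3.prm])
  rcases le_total lam (3 / 4) with h4 | h4
  · exact has_seg C4.prm C4.dat C4.run_ok (by norm_num [C4.prm]) (by norm_num [C4.prm]) lam
      (by linarith) (by simp only [C4.prm]; push_cast; linarith)
      (by simp only [C4.prm]; push_cast; linarith) (by simp [Prm.th, C4.prm])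
  rcases le_total lam (9 / 10) with h5 | h5
  · exact has_seg C5.prm C5.dat C5.run_ok (by norm_num [C5.prm]) (by norm_num [C5.prm]) lam
      (by linarith) (by simp only [C5.prm]; push_cast; linarith)
      (by simp only [C5.prm]; push_cast; linarith) (by simp [Prm.th, C5.prm])
  · exact has_seg C6.prm C6.dat C6.run_ok (by norm_num [C6.prm]) (by norm_num [C6.prm]) lam
      (by linarith) (by simp only [C6.prm]; push_cast; linarith)
      (by simp only [C6.prm]; push_cast; linarith) (by simp [Prm.th, C6.prm])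

theorem cert_b1 (lam : ℝ) (h1 : 1 ≤ lam) (h2 : lam ≤ 9 / 7) :
    HasCert lam (5 * (9 * lam - 1) / 74) := by
  refine has_seg C7.prm C7.dat C7.run_ok (by norm_num [C7.prm]) (by norm_num [C7.prm]) lam
      (by linarith) (by simp only [C7.prm]; push_cast; linarith)
      (by simp only [C7.prm]; push_cast; linarith) ?_
  simp only [Prm.th, C7.prm, if_true]
  push_cast
  ring

theorem cert_b2 (lam : ℝ) (h1 : 9 / 7 ≤ lam) (h2 : lam ≤ 3 / 2) : HasCert lam (5 * lam / 9) := by
  refine has_seg C8.prm C8.dat C8.run_ok (by norm_num [C8.prm]) (by norm_num [C8.prm]) lam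
      (by linarith) (by simp only [C8.prm]; push_cast; linarith)
      (by simp only [C8.prm]; push_cast; linarith) ?_
  simp [Prm.th, C8.prm]

theorem cert_b3 (lam : ℝ) (h1 : 3 / 2 ≤ lam) (h2 : lam ≤ 5 / 3) : HasCert lam (lam - 2 / 3) := by
  refine has_seg C9.prm C9.dat C9.run_ok (by norm_num [C9.prm]) (by norm_num [C9.prm]) lam
      (by linarith) (by simp only [C9.prm]; push_cast; linarith)
      (by simp only [C9.prm]; push_cast; linarith) ?_
  simp only [Prm.th, C9.prm, if_true]
  push_cast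
  ring

theorem cert_b4 (lam : ℝ) (h1 : 5 / 3 ≤ lam) (h2 : lam ≤ 2) : HasCert lam 1 := by
  refine has_seg C10.prm C10.dat C10.run_ok (by norm_num [C10.prm]) (by norm_num [C10.prm]) lam
      (by linarith) (by simp only [C10.prm]; push_cast; linarith)
      (by simp only [C10.prm]; push_cast; linarith) ?_
  simp [Prm.th, C10.prm]

theorem cert_b5 (lam : ℝ) (h1 : 2 ≤ lam) (h2 : lam ≤ 3) : HasCert lam (lam - 1) := by
  refine has_seg C11.prm C11.dat C11.run_ok (by norm_num [C11.prm]) (by norm_num [C11.prm]) lam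
      (by linarith) (by simp only [C11.prm]; push_cast; linarith)
      (by simp only [C11.prm]; push_cast; linarith) ?_
  simp only [Prm.th, C11.prm, if_true]
  push_cast
  ring

theorem cert_all (lam : ℝ) (h1 : 0 < lam) (h2 : lam ≤ 3) : HasCert lam (eK lam) := by
  unfold eK
  split_ifs with g1 g2 g3 g4 g5 g6
  · exact cert_small lam h1 (by linarith)
  · exact cert_a lam (by linarith) g2
  · exact cert_b1 lam (by linarith) g3
  · exact cert_b2 lam (by linarith) g4
  · exact cert_b3 lam (by linarith) g5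
  · exact cert_b4 lam (by linarith) g6
  · exact cert_b5 lam (by linarith) h2

theorem eK_nonneg {lam : ℝ} (h1 : 0 < lam) : 0 ≤ eK lam := by
  unfold eK
  split_ifs <;> linarith

/-- the count for all `lam` -/
theorem main3 (K : Type) [Field K] [NumberField K] (lam : ℝ) (h1 : 0 < lam) (h2 : lam ≤ 3) :
    Fin3 K lam (eK lam) := by
  obtain ⟨N, hN⟩ := cert_all lam h1 h2
  exact fin N lam (eK lam) (eK_nonneg h1) Pool.Agent.W45.AK.uni (est_all K) (db_all K)
    (fun S => Pool.Agent.W108.AK.mb S) hN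

variable {K : Type} [Field K] [NumberField K]

/-- the final form, for finite sets of coordinate vectors with distinct quotients -/
theorem final3 {lam e : ℝ} (hl : 0 ≤ lam) (hF : Fin3 K lam e) (T : Set (Pr K)) (hT : T.Finite)
    (c₀ δ : ℝ) (hδ : 0 < δ) : ∃ D : ℝ, 0 < D ∧ ∀ (X : ℝ) (F : Finset (Fin 3 → K)), 0 ≤ X →
      (∀ x ∈ F, x 0 ≠ 0 ∧ x 1 ≠ 0 ∧ x 2 ≠ 0 ∧ x 0 + x 1 + x 2 = 0 ∧ H3 x ≤ X ∧
        R3 T x ≤ lam * H3 x + c₀) →
      (∀ x ∈ F, ∀ y ∈ F, x 0 / x 1 = y 0 / y 1 → x = y) →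
      (F.card : ℝ) ≤ D * Real.exp ((e + δ) * X) := by
  classical
  set T' : Finset (Pr K) := hT.toFinset with hT'
  have hmem : ∀ v, v ∈ T' ↔ v ∈ T := fun v => Set.Finite.mem_toFinset _
  obtain ⟨D, hD, h⟩ := hF T' (lam * lossK K + c₀) δ hδ
  refine ⟨D, hD, fun X F hX hF1 hF2 => ?_⟩
  have hcard : (F.image fun x => x 0 / x 1).card = F.card :=
    Finset.card_image_of_injOn fun x hx y hy hxy => hF2 x hx y hy hxy
  rw [← hcard]
  refine h X _ hX ?_
  intro t ht
  obtain ⟨x, hx, rfl⟩ := Finset.mem_image.mp ht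
  obtain ⟨h0, h1, h2, hs, hH, hR⟩ := hF1 x hx
  have hb := H3_bounds h1 hs
  have hPt : Pt (x 0 / x 1) := by
    refine ⟨div_ne_zero h0 h1, ?_⟩
    intro h3
    apply h2
    have h4 : x 0 / x 1 * x 1 = x 0 := div_mul_cancel₀ _ h1
    have h5 : x 0 / x 1 = -1 := by linear_combination h3
    rw [h5] at h4
    linear_combination hs + h4
  obtain ⟨P, hP⟩ := exists_isP T' hPt
  refine ⟨hPt, hb.1.trans hH, P, hP, ?_⟩
  rw [← R3_eq hmem h1 hs hP]
  have h3 := mul_le_mul_of_nonneg_left hb.2 hl
  linarith [hb.2]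

end Pool.Agent.R365.AK
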