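import Mathlib
import Pool.Agent.Results.MP_a793bb_nt.ExceptionsAtEveryLevel
import Pool.Agent.R365.SH.Aff
import Pool.Agent.R365.SH.Three

set_option autoImplicit false

/-!
# The exceptions at every level, for finite sets of numbers
-/

namespace Pool.Agent.R365.AK

open NumberField IsDedekindDomain Pool.Agent.H691R3 Pool.Agent.TH876.Loc
open Pool.Agent.R365.SH (w3 w3_ne w3_sum w3_prod w3_div w3_inj)

variable {K : Type} [Field K] [NumberField K]

theorem w3_height' {y : K} (hy : Pt y) :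
    (Module.finrank ℚ K : ℝ) *
      Pool.Agent.Results.MP_a793bb_nt.ExceptionsAtEveryLevel.height (w3 y) = hgt y :=
  Pool.Agent.R365.SH.w3_height hy

open Classical in
theorem w3_rad' {y : K} (hy : Pt y) :
    (Module.finrank ℚ K : ℝ) *
      Pool.Agent.Results.MP_a793bb_nt.ExceptionsAtEveryLevel.rad ∅ (w3 y) =
      Real.log (nn (sp y)) :=
  Pool.Agent.R365.SH.w3_rad hy

open Classical in
/-- the exceptions at the level `t` -/
theorem affExc (K : Type) [Field K] [NumberField K] (t c₀ δ : ℝ) (ht0 : 0 < t) (ht3 : t ≤ 3)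
    (hδ : 0 < δ) : ∃ C : ℝ, 0 < C ∧ ∀ Z : ℝ, 0 ≤ Z → ∀ F : Finset K,
      (∀ x ∈ F, Pt x ∧ hgt x ≤ Z ∧ Real.log (nn (sp x)) ≤ t * hgt x + c₀) →
      (F.card : ℝ) ≤ C * Real.exp ((eK t + δ) * Z) := by
  have hd : (0 : ℝ) < Module.finrank ℚ K := by exact_mod_cast (Module.finrank_pos (R := ℚ) (M := K))
  obtain ⟨C, h⟩ := Pool.Agent.Results.MP_a793bb_nt.ExceptionsAtEveryLevel.result K ∅
    Set.finite_empty t (c₀ / Module.finrank ℚ K) (δ * Module.finrank ℚ K) ht0 ht3 (by positivity)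
  refine ⟨|C| + 1, by positivity, fun Z hZ F hF => ?_⟩
  set B : ℝ := Real.exp (Z / Module.finrank ℚ K) with hB
  have hB1 : 1 ≤ B := Real.one_le_exp (by positivity)
  obtain ⟨hfin, hcard⟩ := h B hB1
  have hsub : ((F.image fun y => Projectivization.mk K (w3 y) (w3_ne y) : Finset _) :
      Set (Projectivization K (Fin 3 → K))) ⊆
      Pool.Agent.Results.MP_a793bb_nt.ExceptionsAtEveryLevel.Exceptions ∅ t
        (c₀ / Module.finrank ℚ K) B := by
    intro P hP
    rw [Finset.mem_coe, Finset.mem_image] at hP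
    obtain ⟨y, hy, rfl⟩ := hP
    obtain ⟨h1, h2, h2'⟩ := hF y hy
    have h3 := w3_height' h1
    have h4 := w3_rad' h1
    refine ⟨w3 y, w3_ne y, rfl, w3_sum y, w3_prod h1, ?_, ?_⟩
    · rw [hB]
      refine Real.exp_le_exp.mpr ?_
      rw [le_div_iff₀ hd, mul_comm, h3]
      exact h2
    · rw [← h3, ← h4] at h2'
      have h6 : (Module.finrank ℚ K : ℝ) *
          Pool.Agent.Results.MP_a793bb_nt.ExceptionsAtEveryLevel.rad ∅ (w3 y) ≤
          (Module.finrank ℚ K : ℝ) *
          (t * Pool.Agent.Results.MP_a793bb_nt.ExceptionsAtEveryLevel.height (w3 y) +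
            c₀ / Module.finrank ℚ K) := by
        refine h2'.trans (le_of_eq ?_)
        field_simp
      exact le_of_mul_le_mul_left h6 hd
  have h1 := Set.ncard_le_ncard hsub hfin
  rw [Set.ncard_coe_finset, Finset.card_image_of_injective _ w3_inj] at h1
  have h3 : (F.card : ℝ) ≤ ((Pool.Agent.Results.MP_a793bb_nt.ExceptionsAtEveryLevel.Exceptions
    (K := K) ∅ t (c₀ / Module.finrank ℚ K) B).ncard : ℝ) := by exact_mod_cast h1
  have h4 : B ^ ((Module.finrank ℚ K : ℝ) *
      Pool.Agent.Results.MP_a793bb_nt.ExceptionsAtEveryLevel.F t + δ * Module.finrank ℚ K) =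
      Real.exp ((eK t + δ) * Z) := by
    have hF : eK t = Pool.Agent.Results.MP_a793bb_nt.ExceptionsAtEveryLevel.F t := rfl
    rw [hF, hB, ← Real.exp_mul]
    congr 1
    field_simp
  rw [h4] at hcard
  refine h3.trans (hcard.trans ?_)
  refine mul_le_mul_of_nonneg_right ?_ (Real.exp_pos _).le
  have := le_abs_self C
  linarith

open Pool.Agent.W223.AK (H3 R3 H3_bounds) in
open Pool.Agent.R365.RC (z3 z3_one z3_sum z3_div α3) in
open Pool.Agent.R365.SH (α3_ne α3_wg off_iff R3_eq_NTc) in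
/-- many points of small radical -/
theorem affLow (K : Type) [Field K] [NumberField K] (t c₀ : ℝ) (ht1 : 1 < t) (ht3 : t ≤ 3) :
    ∃ C Z₀ : ℝ, 0 < C ∧ 0 ≤ Z₀ ∧ ∀ Z : ℝ, Z₀ ≤ Z → ∃ F : Finset K,
      (∀ x ∈ F, Pt x ∧ hgt x ≤ Z ∧ Real.log (nn (sp x)) ≤ t * hgt x + c₀) ∧
      C * Real.exp ((t - 1) * Z) ≤ F.card := by
  classical
  set d : ℝ := (Module.finrank ℚ K : ℝ) with hd
  have hdpos : 0 < d := by
    rw [hd]
    exact_mod_cast Module.finrank_pos
  obtain ⟨C, B0, hC, hB0, h⟩ := Pool.Agent.W221.Exc.low (K := K) ∅ (α3 K) α3_ne α3_wg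
    (by norm_num) (3 - t) c₀ (by linarith) (by linarith)
  have hloss : 0 ≤ lossK K := lossK_nonneg K
  refine ⟨C * Real.exp (-((t - 1) * lossK K)), d * Real.log B0 + lossK K, by positivity,
    add_nonneg (mul_nonneg hdpos.le (Real.log_nonneg hB0)) hloss, fun Z hZ => ?_⟩
  have hB : B0 ≤ Real.exp ((Z - lossK K) / d) := by
    rw [← Real.log_le_iff_le_exp (by linarith), le_div_iff₀ hdpos]
    linarith
  obtain ⟨E, hE, hcard⟩ := h _ hB
  rw [Real.log_exp] at hE
  refine ⟨E, fun x hx => ?_, ?_⟩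
  · obtain ⟨h1, h2, h3⟩ := hE x hx
    have hPt : Pt x := (off_iff x).mp h1
    have hb := H3_bounds (x := z3 x) (by rw [z3_one]; exact one_ne_zero) (z3_sum x)
    rw [z3_div] at hb
    have hb1 : hr (aff x) ≤ H3 (z3 x) := hb.1
    have hb2 : H3 (z3 x) ≤ hr (aff x) + lossK K := hb.2
    have hprod : z3 x 0 * z3 x 1 * z3 x 2 ≠ 0 := by
      have e0 : z3 x 0 = x := by
        have := z3_div x
        rw [z3_one, div_one] at this
        exact this
      have e2 : z3 x 2 = -(x + 1) := by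
        have := z3_sum x
        rw [e0, z3_one] at this
        linear_combination this
      rw [e0, z3_one, e2]
      exact mul_ne_zero (mul_ne_zero hPt.1 one_ne_zero) (neg_ne_zero.mpr hPt.2)
    have hH : H3 (z3 x) = hgt x := by
      have g := Pool.Agent.Y728.AK.height3_eq (z3_sum x) hprod
      rw [z3_div] at g
      rw [← g]
      unfold Pool.Agent.Y728.AK.height3
      rw [mul_div_cancel₀ _ hdpos.ne']
      rfl
    have hR : R3 ∅ (z3 x) = Real.log (nn (sp x)) := by
      have g := Pool.Agent.Y728.AK.radT_eq (∅ : Finset (Pr K)) (z3_sum x) hprod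
      rw [z3_div, Finset.sdiff_empty, Finset.coe_empty] at g
      rw [← g]
      unfold Pool.Agent.Y728.radT
      rw [mul_div_cancel₀ _ hdpos.ne']
      rfl
    have hR3 := R3_eq_NTc ∅ Set.finite_empty h1
    rw [hR] at hR3
    rw [← hR3] at h2
    have h5 : d * ((Z - lossK K) / d) = Z - lossK K := by field_simp
    rw [← hd, h5] at h3
    refine ⟨hPt, by linarith, ?_⟩
    have h6 : ((3 : ℕ) : ℝ) - (3 - t) = t := by push_cast; ring
    rw [h6] at h2
    have h7 : t * hr (aff x) ≤ t * hgt x := by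
      refine mul_le_mul_of_nonneg_left ?_ (by linarith)
      rw [← hH]
      exact hb1
    linarith
  · refine le_trans (le_of_eq ?_) hcard
    rw [← Real.exp_mul, mul_assoc, ← Real.exp_add]
    congr 2
    rw [← hd]
    field_simp
    ring

end Pool.Agent.R365.AK
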