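import Pool.Agent.R365.AK.Cls

set_option autoImplicit false
set_option linter.unusedSectionVars false

/-!
The bound for one cell (`N` exact classes and the tail in the certificate).
-/

namespace Pool.Agent.R365.AK

open NumberField IsDedekindDomain Finset Pool.Agent.H691R3 Pool.Agent.W223.AK
open Pool.Agent.W108.AK (rl_union len_union ex_all len_single le_len_of len_ex_le rl_ex_le rl_cn_sum)

variable {K : Type} [Field K] [NumberField K] {N : ℕ}

/-- the points of a cell are close -/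
structure Close (N : ℕ) (S : Finset (Pr K)) (n : ℕ) (P : K → Fin 3 → Idl K) (x y : K) : Prop where
  hht : |ht x - ht y| ≤ 1
  one : ∀ l, ∀ i : Fin n,
    |rl (ex (P x l) {(i : ℕ) + 1}) - rl (ex (P y l) {(i : ℕ) + 1})| ≤ 1
  tail : ∀ l, |rl (ex (P x l) {m | n < m}) - rl (ex (P y l) {m | n < m})| ≤ 1
  big : ∀ l, |len (ex (P x l) {m | N + 1 ≤ m}) - len (ex (P y l) {m | N + 1 ≤ m})| ≤ 1
  hlm : ∀ l, ∀ v ∈ Spl S, |lm v l x - lm v l y| ≤ 1

section CloseLemmas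

variable {S : Finset (Pr K)} {n : ℕ} {P : K → Fin 3 → Idl K} {x y : K}

lemma close_rl (h : Close N S n P x y) (l : Fin 3) : |rl (P x l) - rl (P y l)| ≤ n + 1 := by
  rw [rl_cn_sum n (P x l), rl_cn_sum n (P y l)]
  have h1 : |∑ i : Fin n, rl (ex (P x l) {(i : ℕ) + 1}) -
      ∑ i : Fin n, rl (ex (P y l) {(i : ℕ) + 1})| ≤ n := by
    rw [← Finset.sum_sub_distrib]
    refine (Finset.abs_sum_le_sum_abs _ _).trans ?_
    refine (Finset.sum_le_sum fun i _ => h.one l i).trans (le_of_eq ?_)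
    rw [Finset.sum_const, Finset.card_univ, Fintype.card_fin, nsmul_eq_mul, mul_one]
  have h2 := h.tail l
  rw [abs_le] at h1 h2 ⊢
  constructor <;> linarith [h1.1, h1.2, h2.1, h2.2]

lemma close_one (hn : N + 1 ≤ n) (h : Close N S n P x y) (l : Fin 3) (i : Fin (N + 1))
    (hi : (i : ℕ) < N) : |rl (ex (P x l) (cls N i)) - rl (ex (P y l) (cls N i))| ≤ 1 := by
  rw [cls_lt hi]
  exact h.one l ⟨i, by omega⟩

/-- the bound for the change of the radical of a class -/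
noncomputable def bR (N n : ℕ) : ℝ := (N : ℝ) + n + 1

lemma bR_ge (N n : ℕ) : (1 : ℝ) ≤ bR N n := by
  unfold bR
  have h1 : (0 : ℝ) ≤ N := Nat.cast_nonneg N
  have h2 : (0 : ℝ) ≤ n := Nat.cast_nonneg n
  linarith

lemma close_rl_cls (hn : N + 1 ≤ n) (h : Close N S n P x y) (l : Fin 3) (i : Fin (N + 1)) :
    |rl (ex (P x l) (cls N i)) - rl (ex (P y l) (cls N i))| ≤ bR N n := by
  by_cases hi : (i : ℕ) < N
  · exact (close_one hn h l i hi).trans (bR_ge N n)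
  · obtain rfl : i = Fin.last N := eq_last hi
    have e4 := close_rl h l
    have f1 : rl (P x l) = ∑ i : Fin N, rl (ex (P x l) (cls N i.castSucc)) +
        rl (ex (P x l) (cls N (Fin.last N))) := by
      rw [← Fin.sum_univ_castSucc (f := fun i => rl (ex (P x l) (cls N i))), ← rl_Un, ex_univ]
    have f2 : rl (P y l) = ∑ i : Fin N, rl (ex (P y l) (cls N i.castSucc)) +
        rl (ex (P y l) (cls N (Fin.last N))) := by
      rw [← Fin.sum_univ_castSucc (f := fun i => rl (ex (P y l) (cls N i))), ← rl_Un, ex_univ]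
    have h1 : |∑ i : Fin N, rl (ex (P x l) (cls N i.castSucc)) -
        ∑ i : Fin N, rl (ex (P y l) (cls N i.castSucc))| ≤ N := by
      rw [← Finset.sum_sub_distrib]
      refine (Finset.abs_sum_le_sum_abs _ _).trans ?_
      refine (Finset.sum_le_sum fun i _ => close_one hn h l i.castSucc i.2).trans (le_of_eq ?_)
      rw [Finset.sum_const, Finset.card_univ, Fintype.card_fin, nsmul_eq_mul, mul_one]
    rw [f1, f2] at e4
    unfold bR
    rw [abs_le] at e4 h1 ⊢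
    constructor
    · linarith [e4.1, e4.2, h1.1, h1.2]
    · linarith [e4.1, e4.2, h1.1, h1.2]

/-- the bound for the change of the radical of a union of classes -/
noncomputable def bU (N n : ℕ) : ℝ := ((N : ℝ) + 1) * bR N n

lemma bU_nonneg (N n : ℕ) : 0 ≤ bU N n := by
  unfold bU
  have := bR_ge N n
  positivity

lemma close_rl_Un (hn : N + 1 ≤ n) (h : Close N S n P x y) (l : Fin 3) (I : Finset (Fin (N + 1))) :
    |rl (ex (P x l) (Un I)) - rl (ex (P y l) (Un I))| ≤ bU N n := by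
  rw [rl_Un, rl_Un, ← Finset.sum_sub_distrib]
  refine (Finset.abs_sum_le_sum_abs _ _).trans ?_
  refine (Finset.sum_le_sum fun i _ => close_rl_cls hn h l i).trans ?_
  rw [Finset.sum_const, nsmul_eq_mul]
  unfold bU
  refine mul_le_mul_of_nonneg_right ?_ (by have := bR_ge N n; linarith)
  have := Finset.card_le_univ I
  rw [Fintype.card_fin] at this
  exact_mod_cast this

lemma close_len_cls (hn : N + 1 ≤ n) (h : Close N S n P x y) (l : Fin 3) (i : Fin (N + 1)) :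
    |len (ex (P x l) (cls N i)) - len (ex (P y l) (cls N i))| ≤ N + 1 := by
  by_cases hi : (i : ℕ) < N
  · have h1 := close_one hn h l i hi
    rw [cls_lt hi] at h1 ⊢
    rw [len_single, len_single, ← mul_sub, abs_mul, Nat.abs_cast]
    have h2 : (((i : ℕ) + 1 : ℕ) : ℝ) ≤ (N : ℝ) + 1 := by
      exact_mod_cast (by omega : (i : ℕ) + 1 ≤ N + 1)
    have h3 := abs_nonneg (rl (ex (P x l) {(i : ℕ) + 1}) - rl (ex (P y l) {(i : ℕ) + 1}))
    have h4 : (0 : ℝ) ≤ (((i : ℕ) + 1 : ℕ) : ℝ) := Nat.cast_nonneg _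
    calc _ ≤ (((i : ℕ) + 1 : ℕ) : ℝ) * 1 := mul_le_mul_of_nonneg_left h1 h4
      _ ≤ _ := by linarith
  · obtain rfl : i = Fin.last N := eq_last hi
    rw [cls_last]
    have := h.big l
    have h2 : (0 : ℝ) ≤ N := Nat.cast_nonneg N
    linarith

/-- the bound for the change of the norm of a union of classes -/
noncomputable def bL (N : ℕ) : ℝ := ((N : ℝ) + 1) * ((N : ℝ) + 1)

lemma bL_nonneg (N : ℕ) : 0 ≤ bL N := by unfold bL; positivity

lemma close_len_Un (hn : N + 1 ≤ n) (h : Close N S n P x y) (l : Fin 3)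
    (I : Finset (Fin (N + 1))) : |len (ex (P x l) (Un I)) - len (ex (P y l) (Un I))| ≤ bL N := by
  rw [len_Un, len_Un, ← Finset.sum_sub_distrib]
  refine (Finset.abs_sum_le_sum_abs _ _).trans ?_
  refine (Finset.sum_le_sum fun i _ => close_len_cls hn h l i).trans ?_
  rw [Finset.sum_const, nsmul_eq_mul]
  unfold bL
  refine mul_le_mul_of_nonneg_right ?_ (by positivity)
  have := Finset.card_le_univ I
  rw [Fintype.card_fin] at this
  exact_mod_cast this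

lemma close_sum_lm (h : Close N S n P x y) (l : Fin 3) :
    |∑ v ∈ Spl S, lm v l x - ∑ v ∈ Spl S, lm v l y| ≤ (Spl S).card := by
  rw [← Finset.sum_sub_distrib]
  refine (Finset.abs_sum_le_sum_abs _ _).trans ?_
  refine (Finset.sum_le_sum fun v hv => h.hlm l v hv).trans (le_of_eq ?_)
  rw [Finset.sum_const, nsmul_eq_mul, mul_one]

end CloseLemmas

lemma V_eq (Q : Fin 3 → Idl K) (l : Fin 3) (I : Finset (Fin (N + 1))) :
    V (fun l i => rl (ex (Q l) (cls N i))) l I = rl (ex (Q l) (Un I)) := by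
  rw [rl_Un]; rfl

lemma W_eq (Q : Fin 3 → Idl K) (l : Fin 3) (I : Finset (Fin (N + 1))) :
    W (fun l i => rl (ex (Q l) (cls N i))) (fun l => len (ex (Q l) (cls N (Fin.last N)))) l I =
      len (ex (Q l) (Un I)) := by
  rw [len_Un]
  unfold W
  refine Finset.sum_congr rfl fun i _ => ?_
  split_ifs with hi
  · simp only [cls_lt hi]
    rw [len_single]
    push_cast
    ring
  · rw [eq_last hi]

/-- the data of a cell -/
structure IsCell (N : ℕ) (S : Finset (Pr K)) (n : ℕ) (lam c₀ Y : ℝ) (E : Finset K)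
    (P : K → Fin 3 → Idl K) (x₀ : K) : Prop where
  mem : x₀ ∈ E
  hY : ht x₀ + 1 = Y
  pt : ∀ x ∈ E, Pt x ∧ IsP S x (P x) ∧ ht x ≤ Y
  rad : rl (P x₀ 0) + rl (P x₀ 1) + rl (P x₀ 2) ≤ lam * ht x₀ + c₀
  close : ∀ x ∈ E, Close N S n P x x₀

section Cases

variable {S : Finset (Pr K)} {n : ℕ} {lam c₀ Y : ℝ} {E : Finset K} {P : K → Fin 3 → Idl K} {x₀ : K}

lemma IsCell.Y_nonneg (h : IsCell N S n lam c₀ Y E P x₀) : 0 ≤ Y := by
  have := ht_nonneg x₀
  have := h.hY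
  linarith

lemma IsCell.rl_le (hn : N + 1 ≤ n) (h : IsCell N S n lam c₀ Y E P x₀) {x : K} (hx : x ∈ E)
    (l : Fin 3) (I : Finset (Fin (N + 1))) :
    rl (ex (P x l) (Un I)) ≤ rl (ex (P x₀ l) (Un I)) + bU N n := by
  have := (abs_le.mp (close_rl_Un hn (h.close x hx) l I)).2
  linarith

lemma IsCell.le_len (hn : N + 1 ≤ n) (h : IsCell N S n lam c₀ Y E P x₀) {x : K} (hx : x ∈ E)
    (l : Fin 3) (I : Finset (Fin (N + 1))) :
    len (ex (P x₀ l) (Un I)) - bL N ≤ len (ex (P x l) (Un I)) := by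
  have := (abs_le.mp (close_len_Un hn (h.close x hx) l I)).1
  linarith

lemma IsCell.le_lm (h : IsCell N S n lam c₀ Y E P x₀) {x : K} (hx : x ∈ E) (l : Fin 3) :
    ∑ v ∈ Spl S, lm v l x₀ - (Spl S).card ≤ ∑ v ∈ Spl S, lm v l x := by
  have := (abs_le.mp (close_sum_lm (h.close x hx) l)).1
  linarith

/-- the case of the gap principle -/
lemma case_M (hn : N + 1 ≤ n) (h : IsCell N S n lam c₀ Y E P x₀) {k : ℕ} {ε D : ℝ} (hD : 0 ≤ D)
    (hM : ∀ (X : ℝ) (E : Finset K) (P : K → Fin 3 → Idl K) (p q r : Fin 3) (I : Fin 3 → Set ℕ)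
      (c g : Fin 3 → ℝ),
    0 ≤ X → (∀ x ∈ E, Pt x ∧ IsP S x (P x) ∧ ht x ≤ X) → p ≠ q → q ≠ r → p ≠ r →
    (∀ m, 1 ≤ m → m ∉ I p → k ∣ m) → (∀ m, 1 ≤ m → m ∉ I q → k ∣ m) →
    (∀ x ∈ E, ∀ l, rl (ex (P x l) (I l)) ≤ c l) →
    (∀ x ∈ E, ∀ l, g l ≤ len (ex (P x l) (I l)) + ∑ v ∈ Spl S, lm v l x) →
    (E.card : ℝ) ≤ D * Real.exp (ε * X + (c p + c q + c r) +
      max 0 (2 * X / k - (g p + g q) / k - g r)))
    {p q r : Fin 3} {I : Fin 3 → Finset (Fin (N + 1))} (hpq : p ≠ q) (hqr : q ≠ r) (hpr : p ≠ r)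
    (hk : 1 ≤ k)
    (hIp : ∀ i, i ∉ I p → k = 1 ∨ ((i : ℕ) < N ∧ k ∣ (i : ℕ) + 1))
    (hIq : ∀ i, i ∉ I q → k = 1 ∨ ((i : ℕ) < N ∧ k ∣ (i : ℕ) + 1)) {R : ℝ}
    (hR : rl (ex (P x₀ p) (Un (I p))) + rl (ex (P x₀ q) (Un (I q))) +
      rl (ex (P x₀ r) (Un (I r))) +
        max 0 (2 * Y / k - ((len (ex (P x₀ p) (Un (I p))) + ∑ v ∈ Spl S, lm v p x₀) +
          (len (ex (P x₀ q) (Un (I q))) + ∑ v ∈ Spl S, lm v q x₀)) / k -
          (len (ex (P x₀ r) (Un (I r))) + ∑ v ∈ Spl S, lm v r x₀)) ≤ R) :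
    (E.card : ℝ) ≤ D * Real.exp (ε * Y + R + 3 * bU N n + 3 * (bL N + (Spl S).card)) := by
  have hk0 : (0 : ℝ) < k := by exact_mod_cast (by omega : 0 < k)
  have hdvd : ∀ l, (∀ i, i ∉ I l → k = 1 ∨ ((i : ℕ) < N ∧ k ∣ (i : ℕ) + 1)) →
      ∀ m, 1 ≤ m → m ∉ Un (I l) → k ∣ m := by
    intro l hl m h1 h2
    have h3 : (⟨min (m - 1) N, by omega⟩ : Fin (N + 1)) ∉ I l := by
      intro h4
      exact h2 ⟨_, h4, h1, rfl⟩
    rcases hl _ h3 with h4 | ⟨h4, h5⟩
    · rw [h4]; exact one_dvd m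
    · simp only at h4 h5
      have h6 : min (m - 1) N + 1 = m := by omega
      rwa [h6] at h5
  have hmain := hM Y E P p q r (fun l => Un (I l))
    (fun l => rl (ex (P x₀ l) (Un (I l))) + bU N n)
    (fun l => len (ex (P x₀ l) (Un (I l))) + ∑ v ∈ Spl S, lm v l x₀ - (bL N + (Spl S).card))
    h.Y_nonneg h.pt hpq hqr hpr (hdvd p hIp) (hdvd q hIq)
    (fun x hx l => h.rl_le hn hx l (I l))
    (fun x hx l => by
      have h1 := h.le_len hn hx l (I l)
      have h2 := h.le_lm hx l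
      linarith)
  refine hmain.trans (mul_le_mul_of_nonneg_left (Real.exp_le_exp.mpr ?_) hD)
  set G : ℝ := bL N + (Spl S).card with hG
  have hG0 : 0 ≤ G := by have := bL_nonneg N; positivity
  set a : ℝ := len (ex (P x₀ p) (Un (I p))) + ∑ v ∈ Spl S, lm v p x₀
  set b : ℝ := len (ex (P x₀ q) (Un (I q))) + ∑ v ∈ Spl S, lm v q x₀
  set c : ℝ := len (ex (P x₀ r) (Un (I r))) + ∑ v ∈ Spl S, lm v r x₀
  have h1 : 2 * Y / k - (a - G + (b - G)) / k - (c - G) =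
      2 * Y / k - (a + b) / k - c + (2 * G / k + G) := by
    field_simp
    ring
  have h2 : 2 * G / k ≤ 2 * G := by
    rw [div_le_iff₀ hk0]
    have h3 : (1 : ℝ) ≤ k := by exact_mod_cast hk
    nlinarith
  have h3 : max 0 (2 * Y / k - (a - G + (b - G)) / k - (c - G)) ≤
      max 0 (2 * Y / k - (a + b) / k - c) + 3 * G := by
    rw [h1]
    have h4 := le_max_left 0 (2 * Y / k - (a + b) / k - c)
    have h5 := le_max_right 0 (2 * Y / k - (a + b) / k - c)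
    refine max_le ?_ ?_ <;> linarith
  linarith

/-- the case of the difference bound -/
lemma case_D (hn : N + 1 ≤ n) (h : IsCell N S n lam c₀ Y E P x₀) {i : Fin (N + 1)}
    (hi : (i : ℕ) < N) {ε D : ℝ} (hD : 0 ≤ D)
    (hDB : ∀ (X : ℝ) (E : Finset K) (P : K → Fin 3 → Idl K) (p q r : Fin 3) (c₁ c₂ c₃ : ℝ),
    0 ≤ X → (∀ x ∈ E, Pt x ∧ IsP S x (P x) ∧ ht x ≤ X) → p ≠ q → q ≠ r → p ≠ r →
    (∀ x ∈ E, rl (ex (P x p) {m | m ≠ (i : ℕ) + 1}) ≤ c₁) →
    (∀ x ∈ E, rl (P x q) ≤ c₂) → (∀ x ∈ E, rl (P x r) ≤ c₃) →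
    (E.card : ℝ) ≤ D * Real.exp (ε * X) *
      (Real.exp (c₁ + c₂) + Real.exp ((c₁ + c₂) / 2 + c₃)))
    {p q r : Fin 3} (hpq : p ≠ q) (hqr : q ≠ r) (hpr : p ≠ r) {R : ℝ}
    (hR1 : rl (ex (P x₀ p) (Un {i}ᶜ)) +
      rl (ex (P x₀ q) (Un (univ : Finset (Fin (N + 1))))) ≤ R)
    (hR2 : (rl (ex (P x₀ p) (Un {i}ᶜ)) + rl (ex (P x₀ q) (Un (univ : Finset (Fin (N + 1)))))) / 2 +
      rl (ex (P x₀ r) (Un (univ : Finset (Fin (N + 1))))) ≤ R) :
    (E.card : ℝ) ≤ 2 * D * Real.exp (ε * Y + R + 2 * bU N n) := by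
  have hb := bU_nonneg N n
  have hmain := hDB Y E P p q r (rl (ex (P x₀ p) (Un {i}ᶜ)) + bU N n)
    (rl (ex (P x₀ q) (Un (univ : Finset (Fin (N + 1))))) + bU N n)
    (rl (ex (P x₀ r) (Un (univ : Finset (Fin (N + 1))))) + bU N n)
    h.Y_nonneg h.pt hpq hqr hpr
    (fun x hx => by rw [rl_compl _ i hi]; exact h.rl_le hn hx p _)
    (fun x hx => by
      have := h.rl_le hn hx q univ
      rwa [ex_univ (P x q)] at this)
    (fun x hx => by
      have := h.rl_le hn hx r univ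
      rwa [ex_univ (P x r)] at this)
  refine hmain.trans ?_
  have h1 : Real.exp (rl (ex (P x₀ p) (Un {i}ᶜ)) + bU N n +
      (rl (ex (P x₀ q) (Un (univ : Finset (Fin (N + 1))))) + bU N n)) ≤
      Real.exp (R + 2 * bU N n) :=
    Real.exp_le_exp.mpr (by linarith)
  have h2 : Real.exp ((rl (ex (P x₀ p) (Un {i}ᶜ)) + bU N n +
      (rl (ex (P x₀ q) (Un (univ : Finset (Fin (N + 1))))) + bU N n)) / 2 +
      (rl (ex (P x₀ r) (Un (univ : Finset (Fin (N + 1))))) + bU N n)) ≤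
      Real.exp (R + 2 * bU N n) :=
    Real.exp_le_exp.mpr (by linarith)
  calc _ ≤ D * Real.exp (ε * Y) * (Real.exp (R + 2 * bU N n) +
        Real.exp (R + 2 * bU N n)) :=
        mul_le_mul_of_nonneg_left (add_le_add h1 h2) (by positivity)
    _ = _ := by
        rw [add_assoc, Real.exp_add (ε * Y)]
        ring

/-- the case of the energy bound -/
lemma case_S (hn : N + 1 ≤ n) (h : IsCell N S n lam c₀ Y E P x₀) {ε D : ℝ} (hD : 0 ≤ D)
    (hEST : ∀ (X : ℝ) (E : Finset K) (P : K → Fin 3 → Idl K) (p q r : Fin 3) (F : Set ℕ)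
      (ν : Fin 3 → Fin n → ℝ) (τ : Fin 3 → ℝ) (c Λ : ℝ) (σ : Pl K → ℝ),
    0 ≤ X → (∀ x ∈ E, Pt x ∧ IsP S x (P x) ∧ ht x ≤ X) → p ≠ q → q ≠ r → p ≠ r →
    (∀ j i, 0 ≤ ν j i) → (∀ j, ∑ i, ν j i ≤ X) →
    (∀ x ∈ E, ∀ j, ∀ i : Fin n, rl (ex (P x j) {(i : ℕ) + 1}) ≤ ν j i) →
    (∀ x ∈ E, ∀ j, rl (ex (P x j) {m | n < m}) ≤ τ j) →
    (∀ x ∈ E, rl (ex (P x r) F) ≤ c) →
    (∀ x ∈ E, ∀ v ∈ Spl S, |lm v r x - σ v| ≤ 1) →
    (∀ x ∈ E, Λ ≤ len (ex (P x r) F) + ∑ v ∈ Spl S, σ v) →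
    (E.card : ℝ) ≤ D * Real.exp (ε * X + c +
      1 / 2 * (2 * τ p + ∑ i, ν p i + max 0 (3 / 2 * ∑ i, ν p i - Λ)) +
      1 / 2 * (2 * τ q + ∑ i, ν q i + max 0 (3 / 2 * ∑ i, ν q i - Λ))))
    {p q r : Fin 3} {F : Finset (Fin (N + 1))} (hpq : p ≠ q) (hqr : q ≠ r) (hpr : p ≠ r) {R δ : ℝ}
    (hδ : 1 / ((n : ℝ) + 1) ≤ δ)
    (hR : rl (ex (P x₀ r) (Un F)) +
      1 / 2 * (rl (ex (P x₀ p) (Un (univ : Finset (Fin (N + 1))))) +
        max 0 (3 / 2 * rl (ex (P x₀ p) (Un (univ : Finset (Fin (N + 1))))) -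
          (len (ex (P x₀ r) (Un F)) + ∑ v ∈ Spl S, lm v r x₀))) +
      1 / 2 * (rl (ex (P x₀ q) (Un (univ : Finset (Fin (N + 1))))) +
        max 0 (3 / 2 * rl (ex (P x₀ q) (Un (univ : Finset (Fin (N + 1))))) -
          (len (ex (P x₀ r) (Un F)) + ∑ v ∈ Spl S, lm v r x₀))) ≤ R) :
    (E.card : ℝ) ≤ D * Real.exp (ε * (Y + cS S + n) + R + bU N n + 2 * (δ * (Y + cS S)) +
      (3 * n + 5 + bL N)) := by
  obtain ⟨hpt0, hP0, _⟩ := h.pt x₀ h.mem
  have hn0 : (0 : ℝ) ≤ n := Nat.cast_nonneg n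
  have hY := h.hY
  have hcS := cS_nonneg S
  have hht := ht_nonneg x₀
  have hbL := bL_nonneg N
  -- sums of the exact classes
  have hsum : ∀ j, ∑ i : Fin n, (rl (ex (P x₀ j) {(i : ℕ) + 1}) + 1) =
      rl (P x₀ j) - rl (ex (P x₀ j) {m | n < m}) + n := by
    intro j
    rw [Finset.sum_add_distrib, Finset.sum_const, Finset.card_univ, Fintype.card_fin,
      nsmul_eq_mul, mul_one, rl_cn_sum n (P x₀ j)]
    ring
  have hlen : ∀ j, len (P x₀ j) ≤ Y + cS S := by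
    intro j
    have := len_le hpt0 hP0 j
    linarith
  have htail : ∀ j, rl (ex (P x₀ j) {m | n < m}) ≤ δ * (Y + cS S) := by
    intro j
    have h1 := le_len_of (P x₀ j) {m | n < m} (n + 1) (fun m hm => hm)
    push_cast at h1
    have h2 := len_ex_le (P x₀ j) {m | n < m}
    have h3 : ((n : ℝ) + 1) * rl (ex (P x₀ j) {m | n < m}) ≤ Y + cS S := by
      have := hlen j
      linarith
    have h4 : rl (ex (P x₀ j) {m | n < m}) ≤ 1 / ((n : ℝ) + 1) * (Y + cS S) := by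
      rw [one_div, inv_mul_eq_div, le_div_iff₀ (by positivity)]
      linarith
    refine h4.trans (mul_le_mul_of_nonneg_right hδ ?_)
    linarith
  have hmain := hEST (Y + cS S + n) E P p q r (Un F)
    (fun j i => rl (ex (P x₀ j) {(i : ℕ) + 1}) + 1)
    (fun j => rl (ex (P x₀ j) {m | n < m}) + 1)
    (rl (ex (P x₀ r) (Un F)) + bU N n)
    (len (ex (P x₀ r) (Un F)) + ∑ v ∈ Spl S, lm v r x₀ - bL N)
    (fun v => lm v r x₀)
    (by linarith)
    (fun x hx => by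
      obtain ⟨h1, h2, h3⟩ := h.pt x hx
      exact ⟨h1, h2, by linarith⟩)
    hpq hqr hpr
    (fun j i => by
      have := rl_nonneg (ex (P x₀ j) {(i : ℕ) + 1})
      linarith)
    (fun j => by
      rw [hsum j]
      have h1 := rl_nonneg (ex (P x₀ j) {m | n < m})
      have h2 := rl_le_len (P x₀ j)
      have h3 := hlen j
      linarith)
    (fun x hx j i => by
      have h1 := (abs_le.mp ((h.close x hx).one j i)).2
      linarith)
    (fun x hx j => by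
      have h1 := (abs_le.mp ((h.close x hx).tail j)).2
      linarith)
    (fun x hx => h.rl_le hn hx r F)
    (fun x hx v hv => (h.close x hx).hlm r v hv)
    (fun x hx => by
      have h1 := h.le_len hn hx r F
      linarith)
  refine hmain.trans (mul_le_mul_of_nonneg_left (Real.exp_le_exp.mpr ?_) hD)
  rw [hsum p, hsum q]
  rw [ex_univ (P x₀ p), ex_univ (P x₀ q)] at hR
  set Λ : ℝ := len (ex (P x₀ r) (Un F)) + ∑ v ∈ Spl S, lm v r x₀ with hΛ
  have key : ∀ j, max 0 (3 / 2 * (rl (P x₀ j) - rl (ex (P x₀ j) {m | n < m}) + n) - (Λ - bL N)) ≤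
      max 0 (3 / 2 * rl (P x₀ j) - Λ) + (3 / 2 * n + bL N) := by
    intro j
    have h1 := rl_nonneg (ex (P x₀ j) {m | n < m})
    have h4 := le_max_left 0 (3 / 2 * rl (P x₀ j) - Λ)
    have h5 := le_max_right 0 (3 / 2 * rl (P x₀ j) - Λ)
    refine max_le ?_ ?_
    · linarith
    · linarith
  have k1 := key p
  have k2 := key q
  have t1 := htail p
  have t2 := htail q
  have r1 := rl_nonneg (ex (P x₀ p) {m | n < m})
  have r2 := rl_nonneg (ex (P x₀ q) {m | n < m})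
  linarith

end Cases

end Pool.Agent.R365.AK
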