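import Mathlib
import Pool.Agent.TH402.AK.Base

set_option autoImplicit false

/-!
# Numbers as fractions in lowest terms, over fields of class number one
-/

namespace Pool.Agent.R365.AK

open NumberField IsDedekindDomain Pool.Agent.H691R3 Pool.Agent.TH876.Loc Pool.Agent.TH402.AK

variable {K : Type} [Field K] [NumberField K]

theorem exists_tri (hK : IsPrincipalIdealRing (𝓞 K)) {x : K} (hx : Pt x) :
    ∃ a b : 𝓞 K, Tri a b ∧ pt a b = x := by
  haveI := hK
  obtain ⟨a, b, hab, h⟩ := IsFractionRing.exists_reduced_fraction (𝓞 K) x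
  have hb : (b : 𝓞 K) ≠ 0 := nonZeroDivisors.coe_ne_zero b
  have hpt : pt a (b : 𝓞 K) = x := by
    rw [← h, IsFractionRing.mk'_eq_div]
    rfl
  refine ⟨a, b, ⟨?_, hb, ?_, hab.isCoprime⟩, hpt⟩
  · rintro rfl
    apply hx.1
    rw [← hpt]
    unfold pt
    simp
  · intro h0
    apply hx.2
    rw [← hpt, pt_add_one hb, h0]
    simp

end Pool.Agent.R365.AK
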